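import Pool.Agent.R179.Per.Stmts

/-!
Piece PER-A of `MP_3836fe_co`: the perimeter of a finite union of closed unit disks of the plane is
a fixed constant times the total exposed angle.
-/

open MeasureTheory Metric Set
open scoped ENNReal

namespace Pool.Agent.R91.PerA

open Pool.Agent.R179.Per

noncomputable section

local instance factTwoPi : Fact (0 < 2 * Real.pi) := ⟨by positivity⟩

/-- The one-dimensional Hausdorff measure of the plane. -/
abbrev mu : Measure Pl := Measure.hausdorffMeasure 1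

/-- The circle group. -/
abbrev AC := AddCircle (2 * Real.pi)

/-- The unit circle parametrised by the circle group. -/
def E (θ : AC) : Pl := !₂[Real.Angle.cos θ, Real.Angle.sin θ]

lemma E_coe (t : ℝ) : E (t : AC) = e t := by
  have h1 : Real.Angle.cos ((t : AC) : Real.Angle) = Real.cos t := Real.Angle.cos_coe t
  have h2 : Real.Angle.sin ((t : AC) : Real.Angle) = Real.sin t := Real.Angle.sin_coe t
  unfold E e
  rw [h1, h2]

lemma dist_sq (x y : Pl) : dist x y ^ 2 = (x 0 - y 0) ^ 2 + (x 1 - y 1) ^ 2 := by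
  rw [EuclideanSpace.dist_eq, Real.sq_sqrt (by positivity), Fin.sum_univ_two, Real.dist_eq,
    Real.dist_eq, sq_abs, sq_abs]

lemma continuous_E : Continuous E := by
  unfold E
  have h1 : Continuous (fun θ : AC => Real.Angle.cos θ) := Real.Angle.continuous_cos
  have h2 : Continuous (fun θ : AC => Real.Angle.sin θ) := Real.Angle.continuous_sin
  fun_prop

lemma injective_E : Function.Injective E := by
  intro x y h
  have h0 : Real.Angle.cos x = Real.Angle.cos y := by
    have := congrArg (fun v : Pl => v 0) h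
    simpa [E] using this
  have h1 : Real.Angle.sin x = Real.Angle.sin y := by
    have := congrArg (fun v : Pl => v 1) h
    simpa [E] using this
  induction x using QuotientAddGroup.induction_on with
  | H x =>
    induction y using QuotientAddGroup.induction_on with
    | H y => exact Real.Angle.cos_sin_inj h0 h1

lemma emb_E : MeasurableEmbedding E :=
  (continuous_E.isClosedEmbedding injective_E).measurableEmbedding

/-- Rotations. -/
def R (φ : ℝ) (v : Pl) : Pl :=
  !₂[Real.cos φ * v 0 - Real.sin φ * v 1, Real.sin φ * v 0 + Real.cos φ * v 1]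

lemma isometry_R (φ : ℝ) : Isometry (R φ) := by
  refine Isometry.of_dist_eq fun x y => ?_
  have h : dist (R φ x) (R φ y) ^ 2 = dist x y ^ 2 := by
    rw [dist_sq, dist_sq]
    simp only [R, PiLp.toLp_apply, Matrix.cons_val_zero, Matrix.cons_val_one]
    have := Real.sin_sq_add_cos_sq φ
    linear_combination ((x 0 - y 0) ^ 2 + (x 1 - y 1) ^ 2) * this
  exact (pow_left_inj₀ dist_nonneg dist_nonneg two_ne_zero).1 h

lemma E_add (φ t : ℝ) : E ((φ : AC) + (t : AC)) = R φ (E (t : AC)) := by
  rw [← AddCircle.coe_add, E_coe, E_coe]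
  unfold e R
  ext i
  fin_cases i
  · simp [Real.cos_add]
  · simp [Real.sin_add]

lemma E_add' (φ : ℝ) (θ : AC) : E ((φ : AC) + θ) = R φ (E θ) := by
  induction θ using QuotientAddGroup.induction_on with
  | H t => exact E_add φ t

/-- The pulled back measure. -/
def nu : Measure AC := Measure.comap E mu

lemma nu_apply (A : Set AC) : nu A = mu (E '' A) := emb_E.comap_apply mu A

instance : Measure.IsAddLeftInvariant nu := by
  refine ⟨fun g => ?_⟩
  induction g using QuotientAddGroup.induction_on with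
  | H φ =>
    refine Measure.ext fun A hA => ?_
    rw [Measure.map_apply (measurable_const_add _) hA, nu_apply, nu_apply]
    have h : E '' A = R φ '' (E '' ((fun x => (φ : AC) + x) ⁻¹' A)) := by
      rw [← Set.image_comp]
      have : (R φ ∘ E) = E ∘ (fun x => (φ : AC) + x) := by
        funext θ
        exact (E_add' φ θ).symm
      have hsurj : Function.Surjective (fun x : AC => (φ : AC) + x) :=
        fun y => ⟨-(φ : AC) + y, by simp⟩
      rw [this, Set.image_comp, Set.image_preimage_eq _ hsurj]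
    rw [h, (isometry_R φ).hausdorffMeasure_image (Or.inl zero_le_one)]

lemma lipschitz_e : LipschitzWith 1 e := by
  refine LipschitzWith.of_dist_le_mul fun s t => ?_
  rw [NNReal.coe_one, one_mul, Real.dist_eq]
  have h : dist (e s) (e t) ^ 2 ≤ |s - t| ^ 2 := by
    rw [dist_sq, sq_abs]
    simp only [e, PiLp.toLp_apply, Matrix.cons_val_zero, Matrix.cons_val_one]
    have h1 := Real.one_sub_sq_div_two_le_cos (x := s - t)
    rw [Real.cos_sub] at h1
    have h2 := Real.sin_sq_add_cos_sq s
    have h3 := Real.sin_sq_add_cos_sq t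
    nlinarith
  exact (pow_le_pow_iff_left₀ dist_nonneg (abs_nonneg _) two_ne_zero).1 h

lemma image_E_univ : E '' univ ⊆ e '' Icc 0 (2 * Real.pi) := by
  rintro _ ⟨θ, -, rfl⟩
  obtain ⟨t, ht, rfl⟩ : ∃ t : ℝ, t ∈ Ico 0 (0 + 2 * Real.pi) ∧ (t : AC) = θ := by
    have := AddCircle.coe_image_Ico_eq (2 * Real.pi) 0
    have h2 : θ ∈ ((↑) : ℝ → AC) '' Ico 0 (0 + 2 * Real.pi) := by
      rw [this]; trivial
    obtain ⟨t, ht, h⟩ := h2
    exact ⟨t, ht, h⟩
  rw [E_coe]
  exact ⟨t, ⟨ht.1, by linarith [ht.2]⟩, rfl⟩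

lemma nu_univ_lt : nu univ < ⊤ := by
  rw [nu_apply]
  refine (measure_mono image_E_univ).trans_lt ?_
  refine (lipschitz_e.hausdorffMeasure_image_le zero_le_one (Icc 0 (2 * Real.pi))).trans_lt ?_
  rw [hausdorffMeasure_real, Real.volume_Icc]
  simp only [ENNReal.coe_one, ENNReal.one_rpow, one_mul]
  exact ENNReal.ofReal_lt_top

instance : IsFiniteMeasure nu := ⟨nu_univ_lt⟩

/-- First coordinate. -/
def fst (v : Pl) : ℝ := v 0

lemma lipschitz_fst : LipschitzWith 1 fst := by
  refine LipschitzWith.of_dist_le_mul fun x y => ?_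
  rw [NNReal.coe_one, one_mul, Real.dist_eq]
  have h : |fst x - fst y| ^ 2 ≤ dist x y ^ 2 := by
    rw [dist_sq, sq_abs]
    unfold fst
    nlinarith [sq_nonneg (x 1 - y 1)]
  exact (pow_le_pow_iff_left₀ (abs_nonneg _) dist_nonneg two_ne_zero).1 h

lemma nu_univ_ne : nu univ ≠ 0 := by
  rw [nu_apply]
  intro h
  have h1 := lipschitz_fst.hausdorffMeasure_image_le zero_le_one (E '' univ)
  have h2 : Icc (-1 : ℝ) 1 ⊆ fst '' (E '' univ) := by
    intro x hx
    refine ⟨E ((Real.arccos x : ℝ) : AC), ⟨_, trivial, rfl⟩, ?_⟩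
    rw [E_coe]
    simp [fst, e, Real.cos_arccos hx.1 hx.2]
  have h3 : (Measure.hausdorffMeasure 1 : Measure ℝ) (Icc (-1 : ℝ) 1) ≤ 0 := by
    refine (measure_mono h2).trans (h1.trans ?_)
    have : (Measure.hausdorffMeasure 1 : Measure Pl) (E '' univ) = 0 := h
    rw [this]
    simp
  rw [hausdorffMeasure_real] at h3
  simp at h3
  norm_num at h3

/-- The constant. -/
def cst : NNReal := Measure.addHaarScalarFactor nu (volume : Measure AC)

lemma nu_eq : nu = cst • (volume : Measure AC) :=
  Measure.isAddInvariant_eq_smul_of_compactSpace nu volume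

lemma cst_ne : cst ≠ 0 := by
  intro h
  have := nu_eq
  rw [h, zero_smul] at this
  exact nu_univ_ne (by rw [this]; rfl)

lemma mu_image (A : Set AC) : mu (E '' A) = cst * volume A := by
  rw [← nu_apply, nu_eq]
  rfl

/-- The exposed directions on the circle group. -/
def expo (S : Finset Pl) (a : Pl) : Set AC := {θ | ∀ b ∈ S, 1 ≤ dist (a + E θ) b}

lemma isClosed_expo (S : Finset Pl) (a : Pl) : IsClosed (expo S a) := by
  have : expo S a = ⋂ b ∈ S, {θ | 1 ≤ dist (a + E θ) b} := by
    ext θ; simp [expo]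
  rw [this]
  refine isClosed_biInter fun b _ => isClosed_le continuous_const ?_
  have := continuous_E
  fun_prop

lemma volume_expo (S : Finset Pl) (a : Pl) : volume (expo S a) = volume (exposed S 1 a) := by
  rw [AddCircle.add_projection_respects_measure (2 * Real.pi) (-Real.pi)
    (isClosed_expo S a).measurableSet]
  congr 1
  ext t
  simp only [exposed, expo, mem_inter_iff, mem_preimage, mem_ofPred_eq, one_smul]
  have h : -Real.pi + 2 * Real.pi = Real.pi := by ring
  rw [h, and_comm]
  have h2 : ∀ t : ℝ, E (QuotientAddGroup.mk t) = e t := E_coe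
  simp only [h2]

/-- The exposed arc. -/
def arc (S : Finset Pl) (a : Pl) : Set Pl := (fun x => a + x) '' (E '' expo S a)

lemma mu_arc (S : Finset Pl) (a : Pl) : mu (arc S a) = cst * volume (exposed S 1 a) := by
  unfold arc
  have h : Isometry (fun x : Pl => a + x) := isometry_add_left a
  have := h.hausdorffMeasure_image (d := 1) (Or.inl zero_le_one) (E '' expo S a)
  unfold mu
  rw [this]
  have h2 := mu_image (expo S a)
  unfold mu at h2
  rw [h2, volume_expo]

lemma dist_E (a : Pl) (θ : AC) : dist (a + E θ) a = 1 := by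
  have h : dist (a + E θ) a ^ 2 = 1 ^ 2 := by
    rw [dist_sq]
    simp only [E, PiLp.add_apply, Matrix.cons_val_zero, Matrix.cons_val_one,
      add_sub_cancel_left]
    have h1 := Real.Angle.cos_sq_add_sin_sq (θ : Real.Angle)
    rw [one_pow]
    exact h1
  exact (pow_left_inj₀ dist_nonneg zero_le_one two_ne_zero).1 h

lemma exists_E {x a : Pl} (h : dist x a = 1) : ∃ θ : AC, x = a + E θ := by
  have h1 : (x 0 - a 0) ^ 2 + (x 1 - a 1) ^ 2 = 1 := by
    rw [← dist_sq, h]; norm_num
  set z : ℂ := ⟨x 0 - a 0, x 1 - a 1⟩ with hz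
  have hn : ‖z‖ = 1 := by
    have : ‖z‖ ^ 2 = 1 := by
      rw [← Complex.normSq_eq_norm_sq, Complex.normSq_mk]
      linarith [h1]
    nlinarith [norm_nonneg z]
  have hz0 : z ≠ 0 := by
    intro h0
    rw [h0] at hn
    simp at hn
  refine ⟨((Complex.arg z : ℝ) : AC), ?_⟩
  rw [E_coe]
  have hc := Complex.cos_arg hz0
  have hs := Complex.sin_arg z
  rw [hn, div_one] at hc hs
  unfold e
  rw [hc, hs]
  ext i
  fin_cases i
  · simp [hz]
  · simp [hz]

/-- The union of the arcs. -/
def Z (S : Finset Pl) : Set Pl := {x | (∀ b ∈ S, 1 ≤ dist x b) ∧ ∃ a ∈ S, dist x a = 1}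

lemma Z_eq (S : Finset Pl) : Z S = ⋃ a ∈ S, arc S a := by
  ext x
  simp only [Z, arc, mem_ofPred_eq, mem_iUnion, exists_prop, mem_image, expo]
  constructor
  · rintro ⟨h1, a, ha, h2⟩
    obtain ⟨θ, rfl⟩ := exists_E h2
    exact ⟨a, ha, E θ, ⟨θ, h1, rfl⟩, rfl⟩
  · rintro ⟨a, ha, _, ⟨θ, h1, rfl⟩, rfl⟩
    exact ⟨h1, a, ha, dist_E a θ⟩

lemma sphere_inter {a b : Pl} (hab : a ≠ b) : mu (sphere a 1 ∩ sphere b 1) = 0 := by
  have : NullSingletonClass mu := Measure.nullSingletonClass_hausdorff Pl one_pos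
  have hfr : Module.finrank ℝ Pl = 2 := by simp
  by_cases h : (sphere a 1 ∩ sphere b 1).Subsingleton
  · exact h.measure_zero mu
  · rw [Set.not_subsingleton_iff] at h
    obtain ⟨p, hp, q, hq, hpq⟩ := h
    refine measure_mono_null (t := {p, q}) ?_ (Set.Countable.measure_zero (by simp) _)
    intro x hx
    exact EuclideanGeometry.eq_of_dist_eq_of_dist_eq_of_finrank_eq_two hfr hab hpq
      hp.1 hq.1 hx.1 hp.2 hq.2 hx.2

lemma arc_subset (S : Finset Pl) (a : Pl) : arc S a ⊆ sphere a 1 := by
  rintro _ ⟨_, ⟨θ, _, rfl⟩, rfl⟩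
  exact dist_E a θ

lemma mu_Z (S : Finset Pl) : mu (Z S) = ∑ a ∈ S, mu (arc S a) := by
  rw [Z_eq]
  refine measure_biUnion_finset₀ ?_ ?_
  · intro a _ b _ hab
    exact measure_mono_null (inter_subset_inter (arc_subset S a) (arc_subset S b))
      (sphere_inter hab)
  · intro a _
    refine MeasurableSet.nullMeasurableSet ?_
    unfold arc
    refine (IsClosed.measurableSet ?_)
    refine (IsCompact.isClosed ?_)
    refine IsCompact.image ?_ (by fun_prop)
    exact (isClosed_expo S a).isCompact.image continuous_E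

lemma frontier_subset (S : Finset Pl) : frontier (⋃ a ∈ S, closedBall a 1) ⊆ Z S := by
  intro x hx
  have hcl : IsClosed (⋃ a ∈ S, closedBall (a : Pl) 1) :=
    S.finite_toSet.isClosed_biUnion fun a _ => isClosed_closedBall
  rw [hcl.frontier_eq] at hx
  obtain ⟨h1, h2⟩ := hx
  have h3 : ∀ b ∈ S, 1 ≤ dist x b := by
    intro b hb
    by_contra hlt
    push Not at hlt
    apply h2
    rw [mem_interior]
    exact ⟨ball b 1, ball_subset_closedBall.trans (subset_biUnion_of_mem (u := fun a => closedBall a 1) hb),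
      isOpen_ball, hlt⟩
  simp only [mem_iUnion, exists_prop, mem_closedBall] at h1
  obtain ⟨a, ha, h⟩ := h1
  exact ⟨h3, a, ha, le_antisymm h (h3 a ha)⟩

lemma diff_subset (S : Finset Pl) : Z S \ frontier (⋃ a ∈ S, closedBall a 1) ⊆
    ⋃ a ∈ S, ⋃ b ∈ S.erase a, sphere a 1 ∩ sphere b 1 := by
  intro x hx
  have hcl : IsClosed (⋃ a ∈ S, closedBall (a : Pl) 1) :=
    S.finite_toSet.isClosed_biUnion fun a _ => isClosed_closedBall
  rw [hcl.frontier_eq] at hx
  obtain ⟨⟨h1, a, ha, h2⟩, h3⟩ := hx
  have h4 : x ∈ ⋃ a ∈ S, closedBall (a : Pl) 1 := by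
    simp only [mem_iUnion, exists_prop, mem_closedBall]
    exact ⟨a, ha, h2.le⟩
  have h5 : x ∈ interior (⋃ a ∈ S, closedBall (a : Pl) 1) := by
    by_contra h; exact h3 ⟨h4, h⟩
  by_contra hne
  have h6 : ∀ b ∈ S.erase a, 1 < dist x b := by
    intro b hb
    refine lt_of_le_of_ne (h1 b (Finset.mem_of_mem_erase hb)) fun heq => hne ?_
    simp only [mem_iUnion, exists_prop]
    exact ⟨a, ha, b, hb, h2, heq.symm⟩
  set V : Set Pl := interior (⋃ a ∈ S, closedBall (a : Pl) 1) ∩
    ⋂ b ∈ S.erase a, (closedBall (b : Pl) 1)ᶜ with hV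
  have hVo : IsOpen V := by
    refine isOpen_interior.inter ?_
    exact (S.erase a).finite_toSet.isOpen_biInter fun b _ => isClosed_closedBall.isOpen_compl
  have hxV : x ∈ V := by
    refine ⟨h5, ?_⟩
    simp only [mem_iInter, mem_compl_iff, mem_closedBall, not_le]
    exact h6
  have hsub : V ⊆ closedBall a 1 := by
    rintro y ⟨hy1, hy2⟩
    have hy3 := interior_subset hy1
    simp only [mem_iUnion, exists_prop] at hy3
    obtain ⟨b, hb, hyb⟩ := hy3
    by_cases hab : b = a
    · rw [← hab]; exact hyb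
    · exfalso
      simp only [mem_iInter, mem_compl_iff] at hy2
      exact hy2 b (Finset.mem_erase.2 ⟨hab, hb⟩) hyb
  have h7 : x ∈ interior (closedBall a 1) := mem_interior.2 ⟨V, hsub, hVo, hxV⟩
  rw [interior_closedBall a one_ne_zero, mem_ball, h2] at h7
  exact lt_irrefl _ h7

lemma mu_frontier (S : Finset Pl) :
    mu (frontier (⋃ a ∈ S, closedBall a 1)) = mu (Z S) := by
  refine le_antisymm (measure_mono (frontier_subset S)) ?_
  have h0 : mu (Z S \ frontier (⋃ a ∈ S, closedBall a 1)) = 0 := by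
    refine measure_mono_null (diff_subset S) ?_
    refine (measure_biUnion_null_iff (I := (S : Set Pl)) S.countable_toSet).2 ?_
    intro a _
    refine (measure_biUnion_null_iff (I := ((S.erase a : Finset Pl) : Set Pl)) (S.erase a).countable_toSet).2 ?_
    intro b hb
    exact sphere_inter (Finset.ne_of_mem_erase hb).symm
  calc mu (Z S) ≤ mu (frontier (⋃ a ∈ S, closedBall a 1) ∪
        (Z S \ frontier (⋃ a ∈ S, closedBall a 1))) := by
        refine measure_mono fun x hx => ?_
        by_cases h : x ∈ frontier (⋃ a ∈ S, closedBall (a : Pl) 1)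
        · exact Or.inl h
        · exact Or.inr ⟨hx, h⟩
    _ ≤ _ := measure_union_le _ _
    _ = _ := by rw [h0, add_zero]

lemma exposed_ne_top (S : Finset Pl) (a : Pl) : volume (exposed S 1 a) ≠ ⊤ := by
  refine ((measure_mono (t := Ioc (-Real.pi) Real.pi) fun t ht => ht.1).trans_lt ?_).ne
  simp

/-- PER-A. -/
theorem a_ok : St_A := by
  refine ⟨cst, by exact_mod_cast cst_ne, ENNReal.coe_ne_top, fun S => ?_⟩
  have h1 := mu_frontier S
  unfold mu at h1
  rw [h1]
  have h2 := mu_Z S
  unfold mu at h2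
  rw [h2]
  unfold T
  rw [ENNReal.ofReal_sum_of_nonneg fun a _ => ENNReal.toReal_nonneg, Finset.mul_sum]
  refine Finset.sum_congr rfl fun a _ => ?_
  rw [ENNReal.ofReal_toReal (exposed_ne_top S a)]
  exact mu_arc S a

end

end Pool.Agent.R91.PerA
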