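import Pool.Agent.R179.Per.Stmts

/-!
Piece PER-E of `MP_3836fe_co`: positivity along rays.
-/

open MeasureTheory Metric Set Filter Topology

namespace Pool.Agent.R91.PerE

open Pool.Agent.R179.Per

noncomputable section

lemma exists_R (M κ c : ℝ) (hc : 0 < c) : ∃ R : ℝ, 0 < R ∧ ∀ x : ℝ, R < |x| → M < c * x ^ 2 + κ := by
  refine ⟨(|M| + |κ|) / c + 1, by positivity, fun x hx => ?_⟩
  have h0 : 0 ≤ (|M| + |κ|) / c := by positivity
  have h1 : |x| ≤ x ^ 2 := by
    rw [← sq_abs]
    nlinarith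
  have h2 : (|M| + |κ|) / c + 1 < x ^ 2 := hx.trans_le h1
  have h3 : |M| + |κ| + c < c * x ^ 2 := by
    have := mul_lt_mul_of_pos_left h2 hc
    have h4 : c * ((|M| + |κ|) / c + 1) = |M| + |κ| + c := by field_simp
    linarith
  have h5 := le_abs_self M
  have h6 := neg_abs_le κ
  linarith

/-- A continuous function on the line vanishing above `M`. -/
structure Van (M : ℝ) (ψ : ℝ → ℝ) : Prop where
  cont : Continuous ψ
  van : ∀ s, M < s → ψ s = 0

lemma Van.hcs {M : ℝ} {ψ : ℝ → ℝ} (h : Van M ψ) {c : ℝ} (hc : 0 < c) (κ : ℝ) (w : ℝ → ℝ) :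
    HasCompactSupport (fun x => w x * ψ (c * x ^ 2 + κ)) := by
  obtain ⟨R, hR, hR2⟩ := exists_R M κ c hc
  refine HasCompactSupport.intro (isCompact_Icc (a := -R) (b := R)) fun x hx => ?_
  have : R < |x| := by
    by_contra hcon
    push Not at hcon
    exact hx (abs_le.1 hcon)
  rw [h.van _ (hR2 x this), mul_zero]

lemma Van.int {M : ℝ} {ψ : ℝ → ℝ} (h : Van M ψ) {c : ℝ} (hc : 0 < c) (κ : ℝ) {w : ℝ → ℝ}
    (hw : Continuous w) : Integrable (fun x => w x * ψ (c * x ^ 2 + κ)) := by
  have := h.cont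
  exact Continuous.integrable_of_hasCompactSupport (by fun_prop) (h.hcs hc κ w)

/-- The inner integral. -/
lemma inner_nonneg {M : ℝ} {φ : ℝ → ℝ} (hφ : Van M φ) (hφ' : Van M (deriv φ))
    (hd : Differentiable ℝ φ) (hp : ∀ s, 0 ≤ φ s) {c : ℝ} (hc : 0 < c) (κ α a b : ℝ)
    (ha : 0 ≤ a) (hb : 0 ≤ b) :
    0 ≤ ∫ x in Ioi α, (a * (x - α) + b) * x * (-deriv φ (c * x ^ 2 + κ)) := by
  set Φ : ℝ → ℝ := fun x => φ (c * x ^ 2 + κ) / (2 * c) with hΦ
  have hder : ∀ x : ℝ, HasDerivAt (fun x => (a * (x - α) + b) * Φ x)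
      (a * Φ x + (a * (x - α) + b) * (x * deriv φ (c * x ^ 2 + κ))) x := by
    intro x
    have h1 : HasDerivAt (fun x : ℝ => c * x ^ 2 + κ) (c * (2 * x)) x := by
      have := ((hasDerivAt_pow 2 x).const_mul c).add_const κ
      simpa using this
    have h2 : HasDerivAt Φ (deriv φ (c * x ^ 2 + κ) * (c * (2 * x)) / (2 * c)) x :=
      (((hd (c * x ^ 2 + κ)).hasDerivAt).comp x h1).div_const (2 * c)
    have h3 : HasDerivAt (fun x : ℝ => a * (x - α) + b) a x := by
      have := (((hasDerivAt_id x).sub_const α).const_mul a).add_const b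
      simpa using this
    have h4 := h3.mul h2
    have h5 : a * Φ x + (a * (x - α) + b) * (x * deriv φ (c * x ^ 2 + κ)) =
        a * Φ x + (a * (x - α) + b) * (deriv φ (c * x ^ 2 + κ) * (c * (2 * x)) / (2 * c)) := by
      field_simp
    rw [h5]
    exact h4
  have hi1 : Integrable (fun x => a * Φ x) := by
    have := hφ.int hc κ (w := fun _ => a / (2 * c)) continuous_const
    refine this.congr (ae_of_all _ fun x => ?_)
    simp only [hΦ]
    ring
  have hi2 : Integrable (fun x => (a * (x - α) + b) * (x * deriv φ (c * x ^ 2 + κ))) := by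
    have := hφ'.int hc κ (w := fun x => (a * (x - α) + b) * x) (by fun_prop)
    refine this.congr (ae_of_all _ fun x => ?_)
    simp only
    ring
  have ht : Tendsto (fun x => (a * (x - α) + b) * Φ x) atTop (𝓝 0) := by
    obtain ⟨R, hR, hR2⟩ := exists_R M κ c hc
    refine tendsto_const_nhds.congr' ?_
    filter_upwards [eventually_gt_atTop R] with x hx
    have : R < |x| := hx.trans_le (le_abs_self x)
    simp only [hΦ]
    rw [hφ.van _ (hR2 x this)]
    simp
  have hmain := integral_Ioi_of_hasDerivAt_of_tendsto (a := α) (m := 0)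
    (f := fun x => (a * (x - α) + b) * Φ x) (hder α).continuousAt.continuousWithinAt
    (fun x _ => hder x) (hi1.add hi2).integrableOn ht
  rw [integral_add hi1.integrableOn hi2.integrableOn] at hmain
  have h1 : ∫ x in Ioi α, (a * (x - α) + b) * x * (-deriv φ (c * x ^ 2 + κ)) =
      -∫ x in Ioi α, (a * (x - α) + b) * (x * deriv φ (c * x ^ 2 + κ)) := by
    rw [← integral_neg]
    refine integral_congr_ae (ae_of_all _ fun x => ?_)
    simp only
    ring
  rw [h1]
  have h2 : 0 ≤ ∫ x in Ioi α, a * Φ x :=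
    integral_nonneg fun x => mul_nonneg ha (div_nonneg (hp _) (by positivity))
  have h3 : 0 ≤ (a * (α - α) + b) * Φ α := by
    have : 0 ≤ Φ α := div_nonneg (hp _) (by positivity)
    have h4 : a * (α - α) + b = b := by ring
    rw [h4]; positivity
  linarith

/-- The function of the distance. -/
def g (ψ : ℝ → ℝ) (κ x : ℝ) : ℝ := ∫ t : ℝ, ψ (x ^ 2 + κ + t ^ 2)

lemma g_eq {M : ℝ} {ψ : ℝ → ℝ} (h : Van M ψ) (κ : ℝ) : ∃ R : ℝ, 0 < R ∧
    (∀ x, g ψ κ x = ∫ t in (-R)..R, ψ (x ^ 2 + κ + t ^ 2)) ∧ ∀ x, R < |x| → g ψ κ x = 0 := by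
  obtain ⟨R, hR, hR2⟩ := exists_R M κ 1 one_pos
  refine ⟨R + 1, by linarith, fun x => ?_, fun x hx => ?_⟩
  · rw [intervalIntegral.integral_of_le (by linarith)]
    unfold g
    symm
    refine setIntegral_eq_integral_of_forall_compl_eq_zero fun t ht => ?_
    by_cases h1 : R < |t|
    · have := hR2 t h1
      exact h.van _ (by nlinarith [sq_nonneg x])
    · push Not at h1
      have h2 := abs_le.1 h1
      exact absurd ⟨by linarith [h2.1], by linarith [h2.2]⟩ ht
  · unfold g
    have h1 : ∀ t : ℝ, ψ (x ^ 2 + κ + t ^ 2) = 0 := fun t => by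
      have := hR2 x (by linarith)
      exact h.van _ (by nlinarith [sq_nonneg t])
    simp [h1]

lemma continuous_g {M : ℝ} {ψ : ℝ → ℝ} (h : Van M ψ) (κ : ℝ) : Continuous (g ψ κ) := by
  obtain ⟨R, hR, h1, -⟩ := g_eq h κ
  have : g ψ κ = fun x => ∫ t in (-R)..R, ψ (x ^ 2 + κ + t ^ 2) := funext h1
  rw [this]
  have hc := h.cont
  exact intervalIntegral.continuous_parametric_intervalIntegral_of_continuous'
    (by unfold Function.uncurry; fun_prop) _ _

lemma int_g {M : ℝ} {ψ : ℝ → ℝ} (h : Van M ψ) (κ : ℝ) {w : ℝ → ℝ} (hw : Continuous w) :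
    Integrable (fun x => w x * g ψ κ x) := by
  obtain ⟨R, hR, -, h2⟩ := g_eq h κ
  have := continuous_g h κ
  refine Continuous.integrable_of_hasCompactSupport (by fun_prop)
    (HasCompactSupport.intro (isCompact_Icc (a := -R) (b := R)) fun x hx => ?_)
  have : R < |x| := by
    by_contra hcon
    push Not at hcon
    exact hx (abs_le.1 hcon)
  rw [h2 x this, mul_zero]

/-- Positivity for a half plane not containing the origin. -/
lemma half_nonneg {M : ℝ} {φ : ℝ → ℝ} (hφ : Van M φ) (hφ' : Van M (deriv φ))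
    (hd : Differentiable ℝ φ) (hp : ∀ s, 0 ≤ φ s) (κ α a b : ℝ) (hα : 0 < α)
    (ha : 0 ≤ a) (hb : 0 ≤ b) :
    0 ≤ ∫ x in Ioi α, (a * (x - α) + b) * g (fun s => -deriv φ s) κ x := by
  set F : ℝ → ℝ → ℝ := fun x τ => (a * (x - α) + b) * x * (-deriv φ ((1 + τ ^ 2) * x ^ 2 + κ))
    with hF
  have h1 : ∫ x in Ioi α, (a * (x - α) + b) * g (fun s => -deriv φ s) κ x =
      ∫ x in Ioi α, ∫ τ, F x τ := by
    refine setIntegral_congr_fun measurableSet_Ioi fun x hx => ?_
    have hx0 : 0 < x := hα.trans hx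
    simp only [hF, g]
    rw [integral_const_mul, mul_assoc]
    congr 1
    have h2 := Measure.integral_comp_mul_left (fun t : ℝ => -deriv φ (x ^ 2 + κ + t ^ 2)) x
    have h3 : ∀ τ : ℝ, -deriv φ ((1 + τ ^ 2) * x ^ 2 + κ) = -deriv φ (x ^ 2 + κ + (x * τ) ^ 2) :=
      fun τ => by congr 2; ring
    simp_rw [h3]
    rw [h2, abs_of_pos (inv_pos.2 hx0), smul_eq_mul]
    field_simp
  rw [h1, integral_integral_swap]
  · refine integral_nonneg fun τ => ?_
    exact inner_nonneg hφ hφ' hd hp (by positivity) κ α a b ha hb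
  · obtain ⟨R, hR, hR2⟩ := exists_R M κ 1 one_pos
    obtain ⟨R', hR', hR2'⟩ := exists_R M κ (α ^ 2) (by positivity)
    have hc := hφ'.cont
    have hcont : Continuous (Function.uncurry F) := by
      unfold Function.uncurry
      simp only [hF]
      fun_prop
    have hprod : (volume.restrict (Ioi α)).prod (volume : Measure ℝ) =
        (volume : Measure (ℝ × ℝ)).restrict (Ioi α ×ˢ univ) := by
      rw [Measure.volume_eq_prod, ← Measure.prod_restrict, Measure.restrict_univ]
    rw [hprod]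
    have hK : IntegrableOn (Function.uncurry F) (Icc (-R) R ×ˢ Icc (-R') R') volume :=
      hcont.continuousOn.integrableOn_compact (isCompact_Icc.prod isCompact_Icc)
    change IntegrableOn _ _ _
    refine IntegrableOn.of_forall_sdiff_eq_zero hK (measurableSet_Ioi.prod MeasurableSet.univ) ?_
    rintro ⟨x, τ⟩ ⟨⟨hx, -⟩, hn⟩
    simp only [Function.uncurry_apply_pair, hF]
    have hx : α < x := hx
    by_cases h5 : R < |x|
    · have h6 := hR2 x h5
      rw [hφ'.van _ (by nlinarith [sq_nonneg τ, sq_nonneg x, mul_nonneg (sq_nonneg τ) (sq_nonneg x)])]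
      simp
    · by_cases h7 : R' < |τ|
      · have h8 := hR2' τ h7
        have h9 : α ^ 2 * τ ^ 2 ≤ x ^ 2 * τ ^ 2 :=
          mul_le_mul_of_nonneg_right (by nlinarith) (sq_nonneg τ)
        rw [hφ'.van _ (by nlinarith [sq_nonneg x])]
        simp
      · push Not at h5 h7
        exact absurd ⟨abs_le.1 h5, abs_le.1 h7⟩ hn

lemma zero_nonneg {M : ℝ} {φ : ℝ → ℝ} (hφ : Van M φ) (hφ' : Van M (deriv φ))
    (hd : Differentiable ℝ φ) (hp : ∀ s, 0 ≤ φ s) (κ a b : ℝ) (ha : 0 ≤ a) (hb : 0 ≤ b) :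
    0 ≤ ∫ x in Ioi (0:ℝ), (a * x + b) * g (fun s => -deriv φ s) κ x := by
  have hv : Van M (fun s => -deriv φ s) :=
    ⟨hφ'.cont.neg, fun s hs => by simp [hφ'.van s hs]⟩
  set G : ℝ → ℝ := fun x => (a * x + b) * g (fun s => -deriv φ s) κ x with hG
  have hGc : Continuous G := by
    have := continuous_g hv κ
    simp only [hG]
    fun_prop
  have hGi : Integrable G := int_g hv κ (w := fun x => a * x + b) (by fun_prop)
  have h1 : ∀ ε : ℝ, 0 < ε → 0 ≤ ∫ x in Ioi ε, G x := by
    intro ε hε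
    have := half_nonneg hφ hφ' hd hp κ ε a (a * ε + b) hε ha (by positivity)
    refine this.trans_eq (integral_congr_ae (ae_of_all _ fun x => ?_))
    simp only [hG]
    ring
  have h2 : ∀ ε : ℝ, 0 < ε →
      ∫ x in Ioi ε, G x = (∫ x in Ioi (0:ℝ), G x) - ∫ x in (0:ℝ)..ε, G x := by
    intro ε hε
    rw [← intervalIntegral.integral_Ioi_sub_Ioi hGi.integrableOn hε.le]
    ring
  have h3 : Tendsto (fun ε : ℝ => (∫ x in Ioi (0:ℝ), G x) - ∫ x in (0:ℝ)..ε, G x) (𝓝[>] 0)
      (𝓝 ((∫ x in Ioi (0:ℝ), G x) - ∫ x in (0:ℝ)..0, G x)) := by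
    have h4 : Continuous fun ε : ℝ => ∫ x in (0:ℝ)..ε, G x :=
      intervalIntegral.continuous_primitive (fun a b => hGc.intervalIntegrable a b) 0
    exact ((continuous_const.sub h4).tendsto 0).mono_left nhdsWithin_le_nhds
  rw [intervalIntegral.integral_same, sub_zero] at h3
  refine ge_of_tendsto h3 ?_
  filter_upwards [self_mem_nhdsWithin] with ε hε
  rw [← h2 ε hε]
  exact h1 ε hε

lemma main_nonneg {M : ℝ} {φ : ℝ → ℝ} (hφ : Van M φ) (hφ' : Van M (deriv φ))
    (hd : Differentiable ℝ φ) (hp : ∀ s, 0 ≤ φ s) (κ α : ℝ) :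
    0 ≤ ∫ x in Ioi α, (x - α) * g (fun s => -deriv φ s) κ x := by
  have hv : Van M (fun s => -deriv φ s) :=
    ⟨hφ'.cont.neg, fun s hs => by simp [hφ'.van s hs]⟩
  set G := g (fun s => -deriv φ s) κ with hG
  have hGc : Continuous G := continuous_g hv κ
  have hGe : ∀ x, G (-x) = G x := fun x => by simp [hG, g]
  have hGi : Integrable G := by
    have := int_g hv κ (w := fun _ => 1) continuous_const
    simpa using this
  have hpos : ∀ β : ℝ, 0 < β → 0 ≤ ∫ x in Ioi β, (x - β) * G x := by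
    intro β hβ
    have := half_nonneg hφ hφ' hd hp κ β 1 0 hβ zero_le_one le_rfl
    simpa using this
  have h0 : 0 ≤ ∫ x in Ioi (0:ℝ), G x := by
    have := zero_nonneg hφ hφ' hd hp κ 0 1 le_rfl zero_le_one
    simpa using this
  rcases lt_or_ge 0 α with h | h
  · exact hpos α h
  · obtain ⟨β, rfl⟩ : ∃ β, α = -β := ⟨-α, by ring⟩
    have hβ : 0 ≤ β := by linarith
    have hi : ∀ w : ℝ → ℝ, Continuous w → Integrable (fun x => w x * G x) :=
      fun w hw => int_g hv κ hw
    have e1 : ∫ x in Ioi (-β), (x - -β) * G x =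
        (∫ x in (-β)..0, (x + β) * G x) + (∫ x in (0:ℝ)..β, (x + β) * G x) +
          ∫ x in Ioi β, (x + β) * G x := by
      have hw := hi (fun x => x + β) (by fun_prop)
      have h5 := intervalIntegral.integral_Ioi_sub_Ioi (a := -β) (b := β) hw.integrableOn
        (by linarith)
      have h6 := intervalIntegral.integral_add_adjacent_intervals
        (hw.intervalIntegrable (a := -β) (b := 0)) (hw.intervalIntegrable (a := 0) (b := β))
      simp only [sub_neg_eq_add]
      linarith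
    have e2 : ∫ x in (-β)..0, (x + β) * G x = ∫ x in (0:ℝ)..β, (β - x) * G x := by
      have := intervalIntegral.integral_comp_neg (a := 0) (b := β) (fun x => (x + β) * G x)
      rw [neg_zero] at this
      rw [← this]
      refine intervalIntegral.integral_congr fun x _ => ?_
      change (-x + β) * G (-x) = (β - x) * G x
      rw [hGe]
      ring
    have e3 : (∫ x in (0:ℝ)..β, (β - x) * G x) + (∫ x in (0:ℝ)..β, (x + β) * G x) =
        2 * β * ∫ x in (0:ℝ)..β, G x := by
      rw [← intervalIntegral.integral_add, ← intervalIntegral.integral_const_mul]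
      · refine intervalIntegral.integral_congr fun x _ => ?_
        change (β - x) * G x + (x + β) * G x = 2 * β * G x
        ring
      · exact (hi (fun x => β - x) (by fun_prop)).intervalIntegrable
      · exact (hi (fun x => x + β) (by fun_prop)).intervalIntegrable
    have e4 : ∫ x in Ioi β, (x + β) * G x =
        (∫ x in Ioi β, (x - β) * G x) + 2 * β * ∫ x in Ioi β, G x := by
      rw [← integral_const_mul, ← integral_add]
      · refine integral_congr_ae (ae_of_all _ fun x => ?_)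
        simp only
        ring
      · exact (hi (fun x => x - β) (by fun_prop)).integrableOn
      · exact (hGi.const_mul _).integrableOn
    have e5 : (∫ x in (0:ℝ)..β, G x) + (∫ x in Ioi β, G x) = ∫ x in Ioi (0:ℝ), G x := by
      rw [← intervalIntegral.integral_Ioi_sub_Ioi hGi.integrableOn hβ]
      ring
    have e6 : ∫ x in Ioi (-β), (x - -β) * G x =
        (∫ x in Ioi β, (x - β) * G x) + 2 * β * ∫ x in Ioi (0:ℝ), G x := by
      rw [e1, e2, e3, e4, ← e5]
      ring
    rw [e6]
    have h7 : 0 ≤ ∫ x in Ioi β, (x - β) * G x := by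
      rcases hβ.lt_or_eq with h8 | h8
      · exact hpos β h8
      · rw [← h8]
        have := zero_nonneg hφ hφ' hd hp κ 1 0 zero_le_one le_rfl
        simpa using this
    positivity

lemma exists_van {φ : ℝ → ℝ} (h : Test φ) : ∃ M, Van M φ ∧ Van M (deriv φ) := by
  obtain ⟨M, hM⟩ := h.cpt.isCompact.bddAbove
  have h1 : ∀ s, M < s → s ∉ tsupport φ := fun s hs hs2 => absurd (hM hs2) (not_le.2 hs)
  refine ⟨M, ⟨h.smooth.continuous, fun s hs => image_eq_zero_of_notMem_tsupport (h1 s hs)⟩,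
    ⟨h.smooth.continuous_deriv (by norm_num), fun s hs => ?_⟩⟩
  by_contra hne
  exact h1 s hs (support_deriv_subset hne)

/-- PER-E. -/
theorem e_ok : St_E := by
  intro φ hT A B C hA _
  obtain ⟨M, hv1, hv2⟩ := exists_van hT
  have hd : Differentiable ℝ φ := hT.smooth.differentiable (by norm_num)
  set s := Real.sqrt A with hs
  have hs0 : 0 < s := Real.sqrt_pos.2 hA
  have hs2 : s ^ 2 = A := Real.sq_sqrt hA.le
  set α := B / s with hα
  set κ := C - α ^ 2 with hκ
  have hmain := main_nonneg hv1 hv2 hd hT.nonneg κ α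
  set G := g (fun s => -deriv φ s) κ with hG
  set Fi : ℝ → ℝ := (Ioi α).indicator fun x => (x - α) * G x with hFi
  have h1 : ∫ ρ in Ioi (0:ℝ), ρ * ∫ t : ℝ, -deriv φ (A * ρ ^ 2 + 2 * B * ρ + C + t ^ 2) =
      ∫ ρ : ℝ, s⁻¹ * Fi (s * ρ + α) := by
    rw [← integral_indicator measurableSet_Ioi]
    refine integral_congr_ae (ae_of_all _ fun ρ => ?_)
    simp only [hFi]
    by_cases hρ : 0 < ρ
    · have h2 : s * ρ + α ∈ Ioi α := by
        change α < s * ρ + α
        have : 0 < s * ρ := mul_pos hs0 hρ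
        linarith
      rw [indicator_of_mem (show ρ ∈ Ioi (0:ℝ) from hρ), indicator_of_mem h2]
      have h3 : s⁻¹ * ((s * ρ + α - α) * G (s * ρ + α)) = ρ * G (s * ρ + α) := by
        field_simp
        ring
      rw [h3]
      congr 1
      simp only [hG, g]
      congr 1
      funext t
      congr 2
      have h4 : s * α = B := by rw [hα]; field_simp
      rw [hκ, ← hs2]
      linear_combination (-2 * ρ) * h4
    · have h2 : s * ρ + α ∉ Ioi α := by
        change ¬ α < s * ρ + α
        have : s * ρ ≤ 0 := mul_nonpos_of_nonneg_of_nonpos hs0.le (not_lt.1 hρ)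
        linarith
      rw [indicator_of_notMem (show ρ ∉ Ioi (0:ℝ) from hρ), indicator_of_notMem h2, mul_zero]
  have h5 : ∫ ρ : ℝ, s⁻¹ * Fi (s * ρ + α) = s⁻¹ * (|s⁻¹| * ∫ x, Fi x) := by
    rw [integral_const_mul]
    congr 1
    have := Measure.integral_comp_mul_left (fun y : ℝ => Fi (y + α)) s
    rw [smul_eq_mul, integral_add_right_eq_self (fun y => Fi y) α] at this
    exact this
  rw [h1, h5, hFi, integral_indicator measurableSet_Ioi]
  have : 0 ≤ s⁻¹ := (inv_pos.2 hs0).le
  positivity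

end

end Pool.Agent.R91.PerE
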