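import Pool.Agent.R537.LR.Stm
import Pool.Agent.H687R2.IntPoly

/-!
# Low-rank approximation: rows, columns and entries are computable in polynomial time
-/

set_option autoImplicit false

namespace Pool.Agent.NPC.R91LRPC

open Pool.Agent.NPC Pool.Agent.NPC.ER Pool.Agent.NPC.R537LR

section

variable {α : Type} [TEnc α]

theorem poly_rn (z : ℕ) {v : α → ℕ} (hv : Poly v) : Poly (fun a => ((z, v a) : RName)) :=
  Poly.pair (Poly.const z) hv

theorem poly_rnil : Poly (fun _ : α => ([] : List RName)) := Poly.const []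

theorem poly_cnil : Poly (fun _ : α => ([] : List Col)) := Poly.const []

theorem poly_rowsL {n : α → ℕ} (hn : UPoly n) : Poly (fun a => rowsL (n a)) := by
  refine Poly.append (Poly.const _) ?_
  refine Poly.flatMap (F := fun _ v => ([(3, v), (4, v), (5, v), (6, v), (7, v)] : List RName))
    hn.range ?_
  have h : Poly (fun p : α × ℕ => p.2) := Poly.snd Poly.id
  exact Poly.cons (poly_rn 3 h) (Poly.cons (poly_rn 4 h) (Poly.cons (poly_rn 5 h)
    (Poly.cons (poly_rn 6 h) (Poly.cons (poly_rn 7 h) poly_rnil))))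

theorem poly_col (t : ℕ) {co : α → List (Option ℤ)} {zs : α → List RName} (hco : Poly co)
    (hzs : Poly zs) : Poly (fun a => ((t, co a, zs a) : Col)) :=
  Poly.pair (Poly.const t) (Poly.pair hco hzs)

theorem poly_colV {v : α → ℕ} (hv : Poly v) : Poly (fun a => colV (v a)) :=
  Poly.cons (poly_col 3 (Poly.const _) (Poly.cons (Poly.const _) (Poly.cons (poly_rn 3 hv)
    (Poly.cons (poly_rn 4 hv) (Poly.cons (poly_rn 5 hv) poly_rnil)))))
  (Poly.cons (poly_col 3 (Poly.const _) (Poly.cons (Poly.const _) (Poly.cons (poly_rn 6 hv)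
    (Poly.cons (poly_rn 7 hv) poly_rnil))))
  (Poly.cons (poly_col 3 (Poly.const _) (Poly.cons (poly_rn 3 hv) (Poly.cons (poly_rn 6 hv)
    poly_rnil))) poly_cnil))

theorem poly_colG {g : α → Gate} (hg : Poly g) : Poly (fun a => colG (g a)) := by
  have h1 : Poly (fun a => (g a).1) := Poly.fst hg
  have h2 : Poly (fun a => (g a).2.1) := Poly.fst (Poly.snd hg)
  have h3 : Poly (fun a => (g a).2.2.1) := Poly.fst (Poly.snd (Poly.snd hg))
  have h4 : Poly (fun a => (g a).2.2.2.1) := Poly.fst (Poly.snd (Poly.snd (Poly.snd hg)))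
  have h5 : Poly (fun a => (g a).2.2.2.2) := Poly.snd (Poly.snd (Poly.snd (Poly.snd hg)))
  have d0 : Poly (fun a => decide ((g a).1 = 0)) := Poly.decide_eq h1 (Poly.const 0)
  have d1 : Poly (fun a => decide ((g a).1 = 1)) := Poly.decide_eq h1 (Poly.const 1)
  have d2 : Poly (fun a => decide ((g a).1 = 2)) := Poly.decide_eq h1 (Poly.const 2)
  have onil : Poly (fun _ : α => ([] : List (Option ℤ))) := Poly.const []
  exact Poly.ite d0 (Poly.const _) (Poly.ite d1
    (poly_col 3 (Poly.cons (Poly.const _) (Poly.cons (Poly.some (Poly.ineg h5))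
      (Poly.cons (Poly.const _) onil))) (Poly.cons (poly_rn 3 h4) poly_rnil))
    (Poly.ite d2 (poly_col 3 (Poly.const _) (Poly.cons (poly_rn 3 h2) (Poly.cons (poly_rn 4 h3)
      (Poly.cons (poly_rn 5 h4) poly_rnil))))
    (poly_col 3 (Poly.const _) (Poly.cons (poly_rn 7 h2) (Poly.cons (poly_rn 3 h3)
      (Poly.cons (poly_rn 6 h4) poly_rnil))))))

theorem poly_colsL {n : α → ℕ} {G : α → List Gate} (hn : UPoly n) (hG : Poly G) :
    Poly (fun a => colsL (n a) (G a)) := by
  refine Poly.append (Poly.const _) (Poly.append ?_ ?_)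
  · exact Poly.flatMap (F := fun _ v => colV v) hn.range (poly_colV (Poly.snd Poly.id))
  · exact Poly.map (F := fun _ g => colG g) hG (poly_colG (Poly.snd Poly.id))

theorem poly_rowv {r : α → RName} (hr : Poly r) : Poly (fun a => rowv (r a)) := by
  have h1 : Poly (fun a => (r a).1) := Poly.fst hr
  have h2 : Poly (fun a => (r a).2) := Poly.snd hr
  have d : ∀ k : ℕ, Poly (fun a => decide ((r a).1 = k)) := fun k =>
    Poly.decide_eq h1 (Poly.const k)
  have e : ∀ k : ℕ, Poly (fun a => decide ((r a).2 = k)) := fun k =>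
    Poly.decide_eq h2 (Poly.const k)
  exact Poly.ite (d 0) (Poly.ite (e 0) (Poly.const _) (Poly.ite (e 1) (Poly.const _)
    (Poly.const _))) (Poly.ite (d 1) (Poly.const _) (Poly.ite (d 2) (Poly.const _)
    (Poly.ite (d 3) (Poly.const _) (Poly.ite (d 4) (Poly.const _) (Poly.ite (d 5) (Poly.const _)
    (Poly.ite (d 6) (Poly.const _) (Poly.const _)))))))

theorem poly_mem {r : α → RName} {l : α → List RName} (hr : Poly r) (hl : Poly l) :
    Poly (fun a => decide (r a ∈ l a)) :=
  (Poly.decide_mem hr hl).congr fun _ => decide_eq_decide.2 Iff.rfl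

theorem poly_ent {r : α → RName} {c : α → Col} (hr : Poly r) (hc : Poly c) :
    Poly (fun a => R537LR.ent (r a) (c a)) := by
  have c1 : Poly (fun a => (c a).1) := Poly.fst hc
  have c2 : Poly (fun a => (c a).2.1) := Poly.fst (Poly.snd hc)
  have c3 : Poly (fun a => (c a).2.2) := Poly.snd (Poly.snd hc)
  have r1 : Poly (fun a => (r a).1) := Poly.fst hr
  have r2 : Poly (fun a => (r a).2) := Poly.snd hr
  have on : Poly (fun _ : α => (none : Option ℤ)) := Poly.const none
  exact Poly.ite (Poly.decide_lt c1 (Poly.const 3)) (Poly.getD (poly_rowv hr) c1 on)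
    (Poly.ite (Poly.decide_eq r1 (Poly.const 0)) (Poly.getD c2 r2 on)
    (Poly.ite (poly_mem hr c3) (Poly.const _) on))

theorem poly_ent1 {r : α → RName} {c : α → Col} (hr : Poly r) (hc : Poly c) :
    Poly (fun a => ent1 (r a) (c a)) := by
  have c1 : Poly (fun a => (c a).1) := Poly.fst hc
  have c3 : Poly (fun a => (c a).2.2) := Poly.snd (Poly.snd hc)
  exact Poly.ite (Poly.decide_and (Poly.decide_eq c1 (Poly.const 4)) (poly_mem hr c3))
    (Poly.const _) (poly_ent hr hc)

end

theorem t_PC : S_PC :=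
  ⟨fun _ _ _ hn => poly_rowsL hn, fun _ _ _ _ hn hG => poly_colsL hn hG,
    poly_ent (Poly.fst Poly.id) (Poly.snd Poly.id),
    poly_ent1 (Poly.fst Poly.id) (Poly.snd Poly.id)⟩

end Pool.Agent.NPC.R91LRPC
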