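import Mathlib

set_option autoImplicit false

namespace Pool.Agent.R91

/-- A generating set of `ℤ_{n₁} × ℤ_{n₂}` with `2 ≤ n₁ ∣ n₂` has at least two elements. -/
theorem two_le_card {n1 n2 : ℕ} (h1 : 2 ≤ n1) (hd : n1 ∣ n2) (h2 : 0 < n2)
    (A : Finset (ZMod n1 × ZMod n2))
    (hA : ∀ g : ZMod n1 × ZMod n2, ∃ c : ZMod n1 × ZMod n2 → ℤ, ∑ a ∈ A, c a • a = g) :
    2 ≤ A.card := by
  classical
  have : NeZero n1 := ⟨by omega⟩
  have : NeZero n2 := ⟨h2.ne'⟩
  by_contra hlt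
  have hle : A.card ≤ 1 := by omega
  obtain ⟨a, ha⟩ : ∃ a : ZMod n1 × ZMod n2, A ⊆ {a} := by
    rcases Finset.eq_empty_or_nonempty A with h | ⟨a, ha⟩
    · exact ⟨0, by simp [h]⟩
    · refine ⟨a, fun b hb => ?_⟩
      rw [Finset.mem_singleton]
      exact Finset.card_le_one.1 hle b hb a ha
  have hgen : ∀ g : ZMod n1 × ZMod n2, g ∈ AddSubgroup.zmultiples a := by
    intro g
    obtain ⟨c, hc⟩ := hA g
    rw [← hc]
    apply AddSubgroup.sum_mem
    intro b hb
    have : b = a := Finset.mem_singleton.1 (ha hb)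
    rw [this]
    exact AddSubgroup.zsmul_mem _ (AddSubgroup.mem_zmultiples a) _
  have hcard : Nat.card (ZMod n1 × ZMod n2) = addOrderOf a := by
    have : AddSubgroup.zmultiples a = ⊤ := by
      rw [AddSubgroup.eq_top_iff']
      exact hgen
    rw [← Nat.card_zmultiples, this]
    exact (Nat.card_congr (Equiv.Set.univ _)).symm
  have hdvd : addOrderOf a ∣ n2 := by
    apply addOrderOf_dvd_of_nsmul_eq_zero
    apply Prod.ext
    · rw [Prod.smul_fst, Prod.fst_zero, nsmul_eq_mul, (ZMod.natCast_eq_zero_iff n2 n1).2 hd, zero_mul]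
    · rw [Prod.smul_snd, Prod.snd_zero, nsmul_eq_mul, ZMod.natCast_self, zero_mul]
  rw [← hcard, Nat.card_prod, Nat.card_zmod, Nat.card_zmod] at hdvd
  have := Nat.le_of_dvd h2 hdvd
  nlinarith

end Pool.Agent.R91
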