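import Pool.Agent.R978.UI.Stm

/-!
Piece UI-A2 of MP_52097a_pr: few vertices in large components imply few unlabeled induced subgraphs.
-/

set_option autoImplicit false

namespace Pool.Agent.R91.UIA2

open Finset Pool.Agent.R980 R978UI
open scoped Classical

/-- Gluing isomorphisms of parts. -/
lemma glue {V ι : Type} (G : SimpleGraph V) (c : V → ι) (hc : ∀ u v, G.Adj u v → c u = c v)
    (S S' : Set V) (π : ι ≃ ι)
    (φ : ∀ i, Nonempty (G.induce {v | v ∈ S ∧ c v = i} ≃g G.induce {v | v ∈ S' ∧ c v = π i})) :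
    Nonempty (G.induce S ≃g G.induce S') := by
  have φ' : ∀ i, (G.induce {v | v ∈ S ∧ c v = i} ≃g G.induce {v | v ∈ S' ∧ c v = π i}) :=
    fun i => (φ i).some
  set F : V → V := fun u => if h : u ∈ S then (φ' (c u) ⟨u, h, rfl⟩ : V) else u with hF
  have key : ∀ (i : ι) (u : V) (hu : u ∈ S ∧ c u = i), ((φ' i ⟨u, hu⟩ : _) : V) = F u := by
    rintro i u ⟨hu, rfl⟩
    simp only [hF]
    rw [dif_pos hu]
  have hmem : ∀ u ∈ S, F u ∈ S' ∧ c (F u) = π (c u) := by
    intro u hu
    rw [← key (c u) u ⟨hu, rfl⟩]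
    exact (φ' (c u) ⟨u, hu, rfl⟩).2
  set f : S → S' := fun u => ⟨F u.1, (hmem u.1 u.2).1⟩ with hf
  have hinj : Function.Injective f := by
    rintro ⟨u, hu⟩ ⟨v, hv⟩ h
    have h1 : F u = F v := congrArg Subtype.val h
    have h2 : c u = c v := by
      have := (hmem u hu).2
      rw [h1, (hmem v hv).2] at this
      exact (π.injective this).symm
    rw [← key (c u) u ⟨hu, rfl⟩, ← key (c u) v ⟨hv, h2.symm⟩] at h1
    have h3 := (φ' (c u)).injective (Subtype.ext h1)
    have h4 : u = v := congrArg Subtype.val h3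
    exact Subtype.ext h4
  have hsurj : Function.Surjective f := by
    rintro ⟨v, hv⟩
    obtain ⟨i, hi⟩ := π.surjective (c v)
    set w := (φ' i).symm ⟨v, hv, hi.symm⟩ with hw
    refine ⟨⟨w.1, w.2.1⟩, Subtype.ext ?_⟩
    change F w.1 = v
    rw [← key i w.1 w.2]
    have : φ' i ⟨w.1, w.2⟩ = ⟨v, hv, hi.symm⟩ := (φ' i).apply_symm_apply _
    rw [this]
  refine ⟨⟨Equiv.ofBijective f ⟨hinj, hsurj⟩, ?_⟩⟩
  rintro ⟨u, hu⟩ ⟨v, hv⟩
  change G.Adj (F u) (F v) ↔ G.Adj u v
  by_cases h : c u = c v
  · rw [← key (c u) u ⟨hu, rfl⟩, ← key (c u) v ⟨hv, h.symm⟩]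
    exact (φ' (c u)).map_rel_iff (a := ⟨u, hu, rfl⟩) (b := ⟨v, hv, h.symm⟩)
  · constructor
    · intro ha
      exfalso
      apply h
      have := hc _ _ ha
      rw [(hmem u hu).2, (hmem v hv).2] at this
      exact π.injective this
    · intro ha
      exact absurd (hc _ _ ha) h

/-- Small graphs. -/
abbrev Ty (K : ℕ) : Type := Σ j : Fin (K + 1), SimpleGraph (Fin j)

lemma exists_ty {V : Type} [Fintype V] (K : ℕ) (G : SimpleGraph V) (X : Set V)
    (hX : X.ncard ≤ K) : ∃ τ : Ty K, Nonempty (G.induce X ≃g τ.2) := by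
  have hc : Fintype.card X = X.ncard := by
    rw [← Nat.card_eq_fintype_card]; rfl
  exact ⟨⟨⟨X.ncard, by omega⟩, (G.induce X).overFin hc⟩, ⟨(G.induce X).overFinIso hc⟩⟩

/-- The type of a set of at most `K` vertices. -/
noncomputable def ty {V : Type} [Fintype V] (K : ℕ) (G : SimpleGraph V) (X : Set V) : Ty K :=
  if h : X.ncard ≤ K then (exists_ty K G X h).choose else ⟨0, ⊥⟩

lemma ty_spec {V : Type} [Fintype V] (K : ℕ) (G : SimpleGraph V) (X : Set V)
    (hX : X.ncard ≤ K) : Nonempty (G.induce X ≃g (ty K G X).2) := by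
  unfold ty
  rw [dif_pos hX]
  exact (exists_ty K G X hX).choose_spec

lemma iso_of_ty {V : Type} [Fintype V] (K : ℕ) (G : SimpleGraph V) (X Y : Set V)
    (hX : X.ncard ≤ K) (hY : Y.ncard ≤ K) (h : ty K G X = ty K G Y) :
    Nonempty (G.induce X ≃g G.induce Y) := by
  obtain ⟨e⟩ := ty_spec K G X hX
  have h2 := ty_spec K G Y hY
  rw [← h] at h2
  obtain ⟨e2⟩ := h2
  exact ⟨e.trans e2.symm⟩

section
variable {n : ℕ} (K : ℕ) (G : SimpleGraph (Fin n))

/-- Components. -/
abbrev Cp := G.ConnectedComponent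

/-- A small component. -/
def Small (C : Cp G) : Prop := {v | G.connectedComponentMk v = C}.ncard ≤ K

/-- The part of `S` in a component. -/
def part (S : Finset (Fin n)) (C : Cp G) : Set (Fin n) :=
  {v | v ∈ (S : Set (Fin n)) ∧ G.connectedComponentMk v = C}

/-- The label of a component. -/
noncomputable def lab (S : Finset (Fin n)) (C : Cp G) : Ty K ⊕ Cp G :=
  if Small K G C then Sum.inl (ty K G (part G S C)) else Sum.inr C

/-- The vertices in large components. -/
noncomputable def big : Finset (Fin n) :=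
  univ.filter fun v : Fin n => K < (univ.filter fun u => G.Reachable v u).card

lemma mem_big (v : Fin n) : v ∈ big K G ↔ ¬ Small K G (G.connectedComponentMk v) := by
  unfold big Small
  rw [mem_filter, not_le]
  have : (univ.filter fun u => G.Reachable v u).card =
      {w | G.connectedComponentMk w = G.connectedComponentMk v}.ncard := by
    rw [← Set.ncard_coe_finset]
    congr 1
    ext w
    simp only [coe_filter, mem_univ, true_and, Set.mem_ofPred_eq, SimpleGraph.ConnectedComponent.eq]
    exact ⟨fun h => h.symm, fun h => h.symm⟩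
  rw [this]
  simp

/-- The number of small components with a given type. -/
noncomputable def num (S : Finset (Fin n)) (τ : Ty K) : ℕ :=
  (univ.filter fun C : Cp G => lab K G S C = Sum.inl τ).card

lemma num_le (S : Finset (Fin n)) (τ : Ty K) : num K G S τ < n + 1 := by
  refine Nat.lt_succ_of_le ((card_filter_le _ _).trans ?_)
  have : Fintype.card (Cp G) ≤ Fintype.card (Fin n) :=
    Fintype.card_le_of_surjective G.connectedComponentMk (fun C => by
      induction C using SimpleGraph.ConnectedComponent.ind with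
      | _ v => exact ⟨v, rfl⟩)
  rw [Fintype.card_fin] at this
  exact this

/-- The invariant. -/
noncomputable def inv (S : Finset (Fin n)) :
    (big K G).powerset × (Ty K → Fin (n + 1)) :=
  (⟨S ∩ big K G, mem_powerset.2 inter_subset_right⟩, fun τ => ⟨num K G S τ, num_le K G S τ⟩)

lemma iso_of_inv (S S' : Finset (Fin n)) (h : inv K G S = inv K G S') :
    (isoSetoid G).r S S' := by
  have h1 : S ∩ big K G = S' ∩ big K G := congrArg (fun z => (z.1 : Finset (Fin n))) h
  have h2 : ∀ τ, num K G S τ = num K G S' τ := fun τ =>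
    congrArg (fun z => ((z.2 τ : Fin (n + 1)) : ℕ)) h
  have e : ∀ c, Nonempty ({C : Cp G // lab K G S C = c} ≃ {C : Cp G // lab K G S' C = c}) := by
    intro c
    rw [← Fintype.card_eq]
    rcases c with τ | D
    · rw [Fintype.card_subtype, Fintype.card_subtype]
      exact h2 τ
    · have : ∀ (T : Finset (Fin n)) (C : Cp G), lab K G T C = Sum.inr D ↔ (¬ Small K G C ∧ C = D) := by
        intro T C
        unfold lab
        split_ifs with hs <;> simp [hs]
      refine Fintype.card_congr (Equiv.subtypeEquivRight fun C => ?_)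
      rw [this, this]
  set π : Cp G ≃ Cp G := Equiv.ofFiberEquiv fun c => (e c).some with hπ
  have hmap : ∀ C, lab K G S' (π C) = lab K G S C := fun C => Equiv.ofFiberEquiv_map _ C
  refine glue G G.connectedComponentMk
    (fun u v ha => SimpleGraph.ConnectedComponent.eq.2 ha.reachable) _ _ π fun C => ?_
  have h3 := hmap C
  unfold lab at h3
  change Nonempty (G.induce (part G S C) ≃g G.induce (part G S' (π C)))
  have hle : ∀ (T : Finset (Fin n)) (C : Cp G), Small K G C → (part G T C).ncard ≤ K := by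
    intro T C hs
    exact (Set.ncard_le_ncard (fun v hv => hv.2) (Set.toFinite _)).trans hs
  split_ifs at h3 with c1 c2 c2
  · have h4 := Sum.inl.inj h3
    exact iso_of_ty K G _ _ (hle _ _ c2) (hle _ _ c1) h4.symm
  · have h4 := Sum.inr.inj h3
    rw [h4]
    have h5 : part G S C = part G S' C := by
      ext v
      simp only [part, Set.mem_ofPred_eq, mem_coe]
      constructor
      · rintro ⟨hv, hc⟩
        refine ⟨?_, hc⟩
        have : v ∈ S ∩ big K G := mem_inter.2 ⟨hv, (mem_big K G v).2 (hc ▸ c2)⟩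
        rw [h1] at this
        exact (mem_inter.1 this).1
      · rintro ⟨hv, hc⟩
        refine ⟨?_, hc⟩
        have : v ∈ S' ∩ big K G := mem_inter.2 ⟨hv, (mem_big K G v).2 (hc ▸ c2)⟩
        rw [← h1] at this
        exact (mem_inter.1 this).1
    rw [h5]
    exact ⟨SimpleGraph.Iso.refl⟩

end

theorem stmtA2 : StmtA2 := by
  intro K
  refine ⟨Fintype.card (Ty K), fun n G => ?_⟩
  have h1 : U G ≤ Fintype.card ((big K G).powerset × (Ty K → Fin (n + 1))) := by
    unfold U
    rw [← Nat.card_eq_fintype_card]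
    refine Nat.card_le_card_of_injective (fun q : Quotient (isoSetoid G) => inv K G q.out) ?_
    intro q q' h
    have h2 := iso_of_inv K G _ _ h
    rw [← Quotient.out_eq q, ← Quotient.out_eq q']
    exact Quotient.sound h2
  refine h1.trans_eq ?_
  rw [Fintype.card_prod, Fintype.card_coe, card_powerset, Fintype.card_fun, Fintype.card_fin]
  rfl

end Pool.Agent.R91.UIA2
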