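import Pool.Agent.R978.UI.Stm

/-!
Piece UI-B3 of MP_52097a_pr: many vertices of a fixed set have a private neighbour.
-/

set_option autoImplicit false

namespace Pool.Agent.R91.UIB3

open Finset Pool.Agent.R980 R978UI
open scoped Classical

/-- The indicator of an edge. -/
def xe {n : ℕ} (x : Edge n → Bool) (u y : Fin n) : Bool :=
  if h : ¬ (s(u, y) : Sym2 (Fin n)).IsDiag then x ⟨s(u, y), h⟩ else false

lemma adj_iff {n : ℕ} (x : Edge n → Bool) (u y : Fin n) :
    (ofBool x).Adj u y ↔ xe x u y = true := by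
  unfold xe
  constructor
  · rintro ⟨h, hx⟩
    rw [dif_pos h]; exact hx
  · intro h
    split_ifs at h with hd
    exact ⟨hd, h⟩

section
variable {n : ℕ} (P : Finset (Fin n))

/-- The coordinates of the pairs between `P` and `y`. -/
def Sy (y : Fin n) : Finset (Edge n) := univ.filter fun e => ∃ u ∈ P, e.1 = s(u, y)

lemma xe_congr {x x' : Edge n → Bool} {y : Fin n} (h : ∀ e ∈ Sy P y, x e = x' e) {u : Fin n}
    (hu : u ∈ P) : xe x u y = xe x' u y := by
  unfold xe
  by_cases hd : ¬ (s(u, y) : Sym2 (Fin n)).IsDiag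
  · rw [dif_pos hd, dif_pos hd]
    exact h _ (mem_filter.2 ⟨mem_univ _, u, hu, rfl⟩)
  · rw [dif_neg hd, dif_neg hd]

lemma xe_congr' {x x' : Edge n → Bool} {y y' : Fin n} (hyP : y ∉ P) (hy : y' ≠ y)
    (h : ∀ e ∉ Sy P y, x e = x' e) {u : Fin n} (hu : u ∈ P) : xe x u y' = xe x' u y' := by
  unfold xe
  by_cases hd : ¬ (s(u, y') : Sym2 (Fin n)).IsDiag
  · rw [dif_pos hd, dif_pos hd]
    refine h _ fun hm => ?_
    obtain ⟨-, v, hv, he⟩ := mem_filter.1 hm
    simp only at he
    rw [Sym2.eq_iff] at he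
    rcases he with ⟨-, h2⟩ | ⟨h1, -⟩
    · exact hy h2
    · exact hyP (h1 ▸ hu)
  · rw [dif_neg hd, dif_neg hd]

/-- `u` is the only neighbour of `y` in `P`. -/
def Uniq (x : Edge n → Bool) (u y : Fin n) : Prop :=
  xe x u y = true ∧ ∀ u' ∈ P, xe x u' y = true → u' = u

/-- The bad event at `y`. -/
noncomputable def gy (P0 : Finset (Fin n)) (y : Fin n) (x : Edge n → Bool) : ℝ :=
  if ∃ u ∈ P0, Uniq P x u y then 0 else 1

lemma uniq_congr {x x' : Edge n → Bool} {y : Fin n} (h : ∀ u ∈ P, xe x u y = xe x' u y)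
    {u : Fin n} (hu : u ∈ P) : Uniq P x u y ↔ Uniq P x' u y := by
  unfold Uniq
  rw [h u hu]
  refine and_congr Iff.rfl (forall₂_congr fun u' hu' => ?_)
  rw [h u' hu']

lemma gy_congr {P0 : Finset (Fin n)} (hP : P0 ⊆ P) {x x' : Edge n → Bool} {y : Fin n}
    (h : ∀ u ∈ P, xe x u y = xe x' u y) : gy P P0 y x = gy P P0 y x' := by
  unfold gy
  have : (∃ u ∈ P0, Uniq P x u y) ↔ ∃ u ∈ P0, Uniq P x' u y :=
    exists_congr fun u => and_congr_right fun hu => uniq_congr P h (hP hu)
  simp only [this]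

lemma bex_gy_prod (hI : StmtIndep) (p : ℝ) {P0 : Finset (Fin n)} (hP : P0 ⊆ P)
    (V : Finset (Fin n)) (hV : Disjoint P V) :
    bex p (fun x : Edge n → Bool => ∏ y ∈ V, gy P P0 y x) = ∏ y ∈ V, bex p (gy P P0 y) := by
  induction V using Finset.induction_on with
  | empty => simp [bex_const]
  | insert y V hy ih =>
    rw [Finset.disjoint_insert_right] at hV
    simp only [prod_insert hy]
    rw [hI (Edge n) _ _ p (Sy P y) (gy P P0 y) (fun x => ∏ y ∈ V, gy P P0 y x), ih hV.2]
    · intro x x' h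
      exact gy_congr P hP fun u hu => xe_congr P h hu
    · intro x x' h
      refine prod_congr rfl fun y' hy' => ?_
      refine gy_congr P hP fun u hu => xe_congr' P hV.1 ?_ h hu
      rintro rfl
      exact hy hy'

/-- The probability that `u` is the only neighbour of `y` in `P`. -/
lemma bex_uniq (p : ℝ) {u y : Fin n} (hu : u ∈ P) (hy : y ∉ P) :
    bex p (fun x : Edge n → Bool => if Uniq P x u y then (1 : ℝ) else 0) =
      p * (1 - p) ^ (P.card - 1) := by
  have huy : ∀ u' ∈ P, ¬ (s(u', y) : Sym2 (Fin n)).IsDiag := by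
    intro u' hu' hd
    rw [Sym2.mk_isDiag_iff] at hd
    exact hy (hd ▸ hu')
  set h : Edge n → Bool → ℝ := fun e b =>
    if e.1 = s(u, y) then (if b = true then 1 else 0)
    else if e ∈ Sy P y then (if b = true then 0 else 1) else 1 with hh
  have h1 : (fun x : Edge n → Bool => if Uniq P x u y then (1 : ℝ) else 0) =
      fun x => ∏ e, h e (x e) := by
    funext x
    by_cases hU : Uniq P x u y
    · rw [if_pos hU]
      symm
      refine prod_eq_one fun e _ => ?_
      simp only [hh]
      split_ifs with c1 c2 c3 c4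
      · rfl
      · exfalso
        apply c2
        have := hU.1
        unfold xe at this
        rw [dif_pos (huy u hu)] at this
        have he : e = ⟨s(u, y), huy u hu⟩ := Subtype.ext c1
        rw [he]; exact this
      · exfalso
        obtain ⟨-, v, hv, he⟩ := mem_filter.1 c3
        have h2 : xe x v y = true := by
          unfold xe
          rw [dif_pos (huy v hv)]
          have he' : e = ⟨s(v, y), huy v hv⟩ := Subtype.ext he
          rw [← he']; exact c4
        have := hU.2 v hv h2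
        rw [this] at he
        exact c1 he
      · rfl
      · rfl
    · rw [if_neg hU]
      symm
      unfold Uniq at hU
      by_cases h2 : xe x u y = true
      · have h3 : ∃ u' ∈ P, xe x u' y = true ∧ u' ≠ u := by
          by_contra hcon
          push Not at hcon
          exact hU ⟨h2, hcon⟩
        obtain ⟨v, hv, hv1, hv2⟩ := h3
        refine prod_eq_zero (mem_univ (⟨s(v, y), huy v hv⟩ : Edge n)) ?_
        simp only [hh]
        have c1 : ¬ (s(v, y) : Sym2 (Fin n)) = s(u, y) := by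
          intro he
          rw [Sym2.eq_iff] at he
          rcases he with ⟨h4, -⟩ | ⟨h4, -⟩
          · exact hv2 h4
          · exact hy (h4 ▸ hv)
        have c2 : (⟨s(v, y), huy v hv⟩ : Edge n) ∈ Sy P y := mem_filter.2 ⟨mem_univ _, v, hv, rfl⟩
        have c3 : x ⟨s(v, y), huy v hv⟩ = true := by
          unfold xe at hv1
          rwa [dif_pos (huy v hv)] at hv1
        rw [if_neg c1, if_pos c2, if_pos c3]
      · refine prod_eq_zero (mem_univ (⟨s(u, y), huy u hu⟩ : Edge n)) ?_
        simp only [hh]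
        have c3 : ¬ x ⟨s(u, y), huy u hu⟩ = true := by
          intro hx
          apply h2
          unfold xe
          rwa [dif_pos (huy u hu)]
        rw [if_pos trivial, if_neg c3]
  rw [h1, bex_prod]
  have h2 : ∀ e : Edge n, p * h e true + (1 - p) * h e false =
      if e.1 = s(u, y) then p else if e ∈ Sy P y then 1 - p else 1 := by
    intro e
    simp only [hh, if_true, Bool.false_eq_true, if_false]
    split_ifs <;> ring
  rw [prod_congr rfl fun e _ => h2 e]
  set e0 : Edge n := ⟨s(u, y), huy u hu⟩ with he0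
  have h3 : e0 ∈ Sy P y := mem_filter.2 ⟨mem_univ _, u, hu, rfl⟩
  have hcard : (Sy P y).card = P.card := by
    symm
    refine card_bij (fun v hv => ⟨s(v, y), huy v hv⟩) ?_ ?_ ?_
    · intro v hv; exact mem_filter.2 ⟨mem_univ _, v, hv, rfl⟩
    · intro v hv w hw he
      have := congrArg Subtype.val he
      simp only at this
      rw [Sym2.eq_iff] at this
      rcases this with ⟨h4, -⟩ | ⟨h4, -⟩
      · exact h4
      · exact absurd (h4 ▸ hv) hy
    · intro e he
      obtain ⟨-, v, hv, he⟩ := mem_filter.1 he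
      exact ⟨v, hv, Subtype.ext he.symm⟩
  rw [← mul_prod_erase univ _ (mem_univ e0), if_pos rfl]
  congr 1
  have h4 : ∀ e ∈ univ.erase e0, (if e.1 = s(u, y) then p else if e ∈ Sy P y then 1 - p else 1) =
      if e ∈ Sy P y then 1 - p else 1 := by
    intro e he
    rw [if_neg]
    intro h5
    exact (mem_erase.1 he).1 (Subtype.ext h5)
  rw [prod_congr rfl h4, prod_ite, prod_const, prod_const_one, mul_one]
  congr 1
  have h5 : (univ.erase e0).filter (fun e => e ∈ Sy P y) = (Sy P y).erase e0 := by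
    ext e; simp [and_comm]
  rw [h5, card_erase_of_mem h3, hcard]

lemma bex_gy (p : ℝ) {P0 : Finset (Fin n)} (hP : P0 ⊆ P) {y : Fin n} (hy : y ∉ P) :
    bex p (gy P P0 y) = 1 - P0.card * (p * (1 - p) ^ (P.card - 1)) := by
  have h1 : gy P P0 y = fun x => 1 + (-1) * ∑ u ∈ P0, if Uniq P x u y then (1 : ℝ) else 0 := by
    funext x
    unfold gy
    split_ifs with h
    · obtain ⟨u, hu, hU⟩ := h
      have h2 : ∀ v ∈ P0, (if Uniq P x v y then (1 : ℝ) else 0) = if v = u then 1 else 0 := by
        intro v hv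
        by_cases hvu : v = u
        · rw [hvu, if_pos hU, if_pos rfl]
        · rw [if_neg hvu, if_neg]
          intro hV
          exact hvu (hU.2 v (hP hv) hV.1)
      rw [sum_congr rfl h2, sum_ite_eq' P0 u, if_pos hu]
      norm_num
    · push Not at h
      rw [sum_eq_zero fun v hv => if_neg (h v hv)]
      norm_num
  rw [h1, bex_add, bex_const, bex_mul]
  have h2 : bex p (fun x : Edge n → Bool => ∑ u ∈ P0, if Uniq P x u y then (1 : ℝ) else 0) =
      ∑ u ∈ P0, bex p (fun x => if Uniq P x u y then (1 : ℝ) else 0) := by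
    unfold bex
    simp_rw [mul_sum]
    rw [sum_comm]
  rw [h2, sum_congr rfl fun u hu => bex_uniq P p (hP hu) hy, sum_const, nsmul_eq_mul]
  ring

/-- The exponential bound for a fixed pair of sets. -/
lemma main_bound (hI : StmtIndep) {p : ℝ} (h0 : 0 ≤ p) (h1 : p ≤ 1)
    (hsp : (P.card : ℝ) * p ≤ 1 / 2) (V : Finset (Fin n)) (hV : Disjoint P V) {d : ℝ}
    (hd : d ≤ p * V.card) {ζ l : ℝ} (hl0 : 0 < l) (hl1 : l ≤ 1) :
    gnp n p (fun G => ((P.filter fun u => ∃ y ∈ V, G.Adj u y ∧
      ∀ u' ∈ P, G.Adj u' y → u' = u).card : ℝ) < ζ * P.card) ≤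
      (l ^ (-ζ) * (l + Real.exp (-(d / 2)))) ^ P.card := by
  set s := P.card with hs
  set Pr : (Edge n → Bool) → Finset (Fin n) := fun x => P.filter fun u => ∃ y ∈ V,
    (ofBool x).Adj u y ∧ ∀ u' ∈ P, (ofBool x).Adj u' y → u' = u with hPr
  rw [gnp_eq_bex]
  have step1 : ∀ x : Edge n → Bool, (if ((Pr x).card : ℝ) < ζ * s then (1 : ℝ) else 0) ≤
      ∑ P1 ∈ P.powerset, l ^ ((P1.card : ℝ) - ζ * s) * ∏ y ∈ V, gy P (P \ P1) y x := by
    intro x
    have hnn : ∀ P1 ∈ P.powerset, 0 ≤ l ^ ((P1.card : ℝ) - ζ * s) * ∏ y ∈ V, gy P (P \ P1) y x := by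
      intro P1 _
      refine mul_nonneg (Real.rpow_nonneg hl0.le _) (prod_nonneg fun y _ => ?_)
      unfold gy
      split_ifs <;> norm_num
    split_ifs with h
    · refine le_trans ?_ (single_le_sum hnn (mem_powerset.2 (filter_subset _ _ : Pr x ⊆ P)))
      have h2 : ∏ y ∈ V, gy P (P \ Pr x) y x = 1 := by
        refine prod_eq_one fun y hy => ?_
        unfold gy
        rw [if_neg]
        rintro ⟨u, hu, hU⟩
        rw [mem_sdiff] at hu
        apply hu.2
        simp only [hPr, mem_filter]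
        refine ⟨hu.1, y, hy, (adj_iff x u y).2 hU.1, fun u' hu' ha => ?_⟩
        exact hU.2 u' hu' ((adj_iff x u' y).1 ha)
      rw [h2, mul_one]
      exact Real.one_le_rpow_of_pos_of_le_one_of_nonpos hl0 hl1 (by linarith)
    · exact sum_nonneg hnn
  refine (bex_mono h0 h1 step1).trans ?_
  have e1 : bex p (fun x : Edge n → Bool => ∑ P1 ∈ P.powerset,
      l ^ ((P1.card : ℝ) - ζ * s) * ∏ y ∈ V, gy P (P \ P1) y x) =
      ∑ P1 ∈ P.powerset, l ^ ((P1.card : ℝ) - ζ * s) *
        bex p (fun x => ∏ y ∈ V, gy P (P \ P1) y x) := by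
    unfold bex
    simp_rw [mul_sum]
    rw [sum_comm]
    refine sum_congr rfl fun P1 _ => sum_congr rfl fun x _ => by ring
  rw [e1]
  have e2 : ∀ P1 ∈ P.powerset, l ^ ((P1.card : ℝ) - ζ * s) *
      bex p (fun x : Edge n → Bool => ∏ y ∈ V, gy P (P \ P1) y x) ≤
      (l ^ (-ζ)) ^ s * (l ^ P1.card * Real.exp (-(d / 2)) ^ (s - P1.card)) := by
    intro P1 hP1
    rw [mem_powerset] at hP1
    rw [bex_gy_prod P hI p sdiff_subset V hV]
    have hle : P1.card ≤ s := card_le_card hP1
    have hcd : (P \ P1).card = s - P1.card := by rw [card_sdiff_of_subset hP1]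
    have hq : 1 / 2 ≤ (1 - p) ^ (s - 1) := by
      have h3 := one_add_mul_le_pow (a := -p) (by linarith) (s - 1)
      have h4 : ((s - 1 : ℕ) : ℝ) ≤ (s : ℝ) := by exact_mod_cast Nat.sub_le _ _
      have h5 : ((s - 1 : ℕ) : ℝ) * p ≤ s * p := mul_le_mul_of_nonneg_right h4 h0
      have h6 : (1 + -p) = 1 - p := by ring
      rw [h6] at h3
      linarith
    have hb : ∀ y ∈ V, bex p (gy P (P \ P1) y) ≤
        Real.exp (-(((s - P1.card : ℕ) : ℝ) * (p / 2))) := by
      intro y hy
      have hyP : y ∉ P := fun h => (Finset.disjoint_left.1 hV h) hy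
      rw [bex_gy P p sdiff_subset hyP, hcd]
      have h3 := Real.add_one_le_exp (-(((s - P1.card : ℕ) : ℝ) * (p / 2)))
      have h4 : ((s - P1.card : ℕ) : ℝ) * (p / 2) ≤
          ((s - P1.card : ℕ) : ℝ) * (p * (1 - p) ^ (P.card - 1)) := by
        refine mul_le_mul_of_nonneg_left ?_ (Nat.cast_nonneg _)
        have := mul_le_mul_of_nonneg_left hq h0
        linarith
      linarith
    have hb0 : ∀ y ∈ V, 0 ≤ bex p (gy P (P \ P1) y) := by
      intro y _
      refine sum_nonneg fun x _ => mul_nonneg (bw_nonneg h0 h1 x) ?_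
      unfold gy
      split_ifs <;> norm_num
    have h5 : ∏ y ∈ V, bex p (gy P (P \ P1) y) ≤ Real.exp (-(d / 2)) ^ (s - P1.card) := by
      refine (prod_le_prod hb0 hb).trans ?_
      rw [prod_const, ← Real.exp_nat_mul, ← Real.exp_nat_mul]
      refine Real.exp_le_exp.2 ?_
      have h6 := mul_le_mul_of_nonneg_left hd (Nat.cast_nonneg (α := ℝ) (s - P1.card))
      nlinarith
    have h6 : l ^ ((P1.card : ℝ) - ζ * s) = (l ^ (-ζ)) ^ s * l ^ P1.card := by
      rw [← Real.rpow_natCast (l ^ (-ζ)) s, ← Real.rpow_mul hl0.le, ← Real.rpow_natCast l P1.card,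
        ← Real.rpow_add hl0]
      congr 1
      ring
    rw [h6, mul_assoc]
    refine mul_le_mul_of_nonneg_left ?_ (pow_nonneg (Real.rpow_nonneg hl0.le _) _)
    exact mul_le_mul_of_nonneg_left h5 (pow_nonneg hl0.le _)
  refine (sum_le_sum e2).trans ?_
  rw [← mul_sum, Finset.sum_pow_mul_eq_add_pow, mul_pow]

end

theorem stmtB3 (hI : StmtIndep) : StmtB3 := by
  intro K d hK hd
  set E := Real.exp (-(d / 2)) with hE
  have hE0 : 0 < E := Real.exp_pos _
  have hE1 : E < 1 := by
    rw [hE, Real.exp_lt_one_iff]; linarith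
  set l := (1 - E) / 2 with hl
  have hl0 : 0 < l := by rw [hl]; linarith
  have hl1 : l < 1 := by rw [hl]; linarith
  set r := l + E with hr
  have hr0 : 0 < r := by positivity
  have hr1 : r < 1 := by rw [hr, hl]; linarith
  have hlr : Real.log r < 0 := Real.log_neg hr0 hr1
  have hll : Real.log l < 0 := Real.log_neg hl0 hl1
  refine ⟨Real.log r / (2 * Real.log l), div_pos_of_neg_of_neg hlr (by linarith), ?_⟩
  set ζ := Real.log r / (2 * Real.log l) with hζ
  have hbase : l ^ (-ζ) * r = Real.exp (Real.log r / 2) := by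
    rw [Real.rpow_def_of_pos hl0]
    conv_lhs => rw [← Real.exp_log hr0]
    rw [← Real.exp_add]
    congr 1
    rw [hζ]
    have := hll.ne
    field_simp
    ring
  have hb0 : 0 < Real.exp (Real.log r / 2) := Real.exp_pos _
  have hb1 : Real.exp (Real.log r / 2) < 1 := by
    rw [Real.exp_lt_one_iff]; linarith
  intro γ hγ hγK η hη
  obtain ⟨M, hM⟩ := exists_pow_lt_of_lt_one hη hb1
  obtain ⟨N, hN⟩ := exists_nat_gt (max (2 * (M + 1) / γ) (max K 1))
  refine ⟨N, fun n hn p hp1 hp2 P V hPV hP1 hP2 hV => ?_⟩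
  have hn' : (N : ℝ) ≤ n := by exact_mod_cast hn
  have hnK : K < n := lt_of_lt_of_le (lt_of_le_of_lt ((le_max_left _ _).trans (le_max_right _ _)) hN) hn'
  have hn0 : (0 : ℝ) < n := by linarith
  have hnM : 2 * (M + 1) / γ < n := lt_of_lt_of_le (lt_of_le_of_lt (le_max_left _ _) hN) hn'
  have h0 : 0 ≤ p := le_trans (by positivity) hp1
  have h1 : p ≤ 1 := hp2.trans (by rw [div_le_one hn0]; exact hnK.le)
  have hsp : (P.card : ℝ) * p ≤ 1 / 2 := by
    have h2 : (P.card : ℝ) * p ≤ (γ * n) * (K / n) := mul_le_mul hP2 hp2 h0 (by positivity)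
    have h3 : (γ * n) * (K / n) = γ * K := by field_simp
    have h4 : γ * K ≤ 1 / (2 * K) * K := mul_le_mul_of_nonneg_right hγK (by linarith)
    have h5 : 1 / (2 * K) * K = 1 / 2 := by
      have : K ≠ 0 := by linarith
      field_simp
    linarith
  have hdp : d ≤ p * V.card := by
    have h2 : 1 / n * (d * n) ≤ p * V.card := mul_le_mul hp1 hV (by positivity) h0
    have h3 : 1 / n * (d * n) = d := by field_simp
    linarith
  have hcard : (M : ℝ) ≤ P.card := by
    rw [div_lt_iff₀ hγ] at hnM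
    linarith
  have hcard' : M ≤ P.card := by exact_mod_cast hcard
  have h2 := main_bound P hI h0 h1 hsp V hPV hdp (ζ := ζ) hl0 hl1.le
  refine h2.trans ?_
  rw [← hE, ← hr, hbase]
  exact (pow_le_pow_of_le_one hb0.le hb1.le hcard').trans hM.le

end Pool.Agent.R91.UIB3
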